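import Mathlib

set_option autoImplicit false

namespace Pool.Agent.H.MP_ec79b7_al

section Engel
variable {G : Type} [Group G]

/-- Conjugation `z ↦ y⁻¹ z y`, iterated. -/
def cj (y : G) (j : ℕ) (z : G) : G := (y ^ j)⁻¹ * z * y ^ j

theorem cj_succ (y : G) (j : ℕ) (z : G) :
    cj y (j + 1) z = cj y j z * cj y j (z⁻¹ * y⁻¹ * z * y) := by
  simp only [cj, pow_succ']; group

theorem cj_add (y : G) (i j : ℕ) (z : G) : cj y i (cj y j z) = cj y (j + i) z := by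
  simp only [cj, pow_add]; group

theorem down (y : G) (S : Subgroup G) (n : ℕ) : ∀ w : G,
    (fun z : G => z⁻¹ * y⁻¹ * z * y)^[n] w = 1 → (∀ j, cj y (j + 1) w ∈ S) → w ∈ S := by
  induction n with
  | zero => rintro w rfl _; exact S.one_mem
  | succ n ih =>
    intro w h hS
    have h1 := ih _ h fun j => by
      have := S.mul_mem (S.inv_mem (hS j)) (hS (j + 1))
      rwa [cj_succ y (j + 1), inv_mul_cancel_left] at this
    have := S.mul_mem (hS 0) (S.inv_mem h1)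
    rwa [cj_succ, show ∀ z, cj y 0 z = z by simp [cj], show ∀ z, cj y 0 z = z by simp [cj],
      mul_inv_cancel_right] at this

theorem step (y w : G) (A B : Set G) (hA : ∀ a ∈ A, ∀ b ∈ A, a * b ∈ A) (h : ∀ z, z ∈ A ∨ z ∈ B)
    (N : ℕ) (hN : ∀ j ≥ N, cj y j (w⁻¹ * y⁻¹ * w * y) ∈ A) :
    (∃ N, ∀ j ≥ N, cj y j w ∈ A) ∨ ∃ N, ∀ j ≥ N, cj y j w ∈ B := by
  by_cases e : ∃ i ≥ N, cj y i w ∈ A
  · obtain ⟨i, hi, e⟩ := e
    refine .inl ⟨i, fun j hj => ?_⟩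
    induction j, hj using Nat.le_induction with
    | base => exact e
    | succ j hj ih => rw [cj_succ]; exact hA _ ih _ (hN j (hi.trans hj))
  · exact .inr ⟨N, fun j hj => (h _).resolve_left fun h' => e ⟨j, hj, h'⟩⟩

theorem ev (y : G) (A B : Set G) (hA : ∀ a ∈ A, ∀ b ∈ A, a * b ∈ A)
    (hB : ∀ a ∈ B, ∀ b ∈ B, a * b ∈ B) (h : ∀ z, z ∈ A ∨ z ∈ B) (n : ℕ) : ∀ w : G,
    (fun z : G => z⁻¹ * y⁻¹ * z * y)^[n] w = 1 →
      (∃ N, ∀ j ≥ N, cj y j w ∈ A) ∨ ∃ N, ∀ j ≥ N, cj y j w ∈ B := by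
  induction n with
  | zero =>
    rintro w rfl
    exact (h 1).imp (fun h => ⟨0, fun j _ => by simpa [cj] using h⟩)
      fun h => ⟨0, fun j _ => by simpa [cj] using h⟩
  | succ n ih =>
    intro w hw
    obtain ⟨N, hN⟩ | ⟨N, hN⟩ := ih _ hw
    exacts [step y w A B hA h N hN, (step y w B A hB (fun z => (h z).symm) N hN).symm]

end Engel

variable {G : Type} [Group G] [Lattice G] [MulLeftMono G] [MulRightMono G]

/-- The lower set generated by a convex `ℓ`-subgroup. -/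
structure IM (P : Set G) : Prop where
  one : 1 ∈ P
  mul : ∀ a ∈ P, ∀ b ∈ P, a * b ∈ P
  low : ∀ a ∈ P, ∀ b, b ≤ a → b ∈ P
  sup : ∀ a ∈ P, a ⊔ 1 ∈ P

theorem sup_le_mul (a b : G) : a ⊔ b ⊔ 1 ≤ (a ⊔ 1) * (b ⊔ 1) ∧ a * b ⊔ 1 ≤ (a ⊔ 1) * (b ⊔ 1) :=
  ⟨sup_le (sup_le (le_sup_left.trans (le_mul_of_one_le_right' le_sup_right))
    (le_sup_left.trans (le_mul_of_one_le_left' le_sup_right))) (one_le_mul le_sup_right le_sup_right),
    sup_le (mul_le_mul' le_sup_left le_sup_left) (one_le_mul le_sup_right le_sup_right)⟩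

theorem IM.sup2 {P : Set G} (h : IM P) {a b : G} (ha : a ∈ P) (hb : b ∈ P) : a ⊔ b ∈ P :=
  h.low _ (h.mul _ (h.sup _ ha) _ (h.sup _ hb)) _ (le_sup_left.trans (sup_le_mul a b).1)

theorem inf_mul_le {x y z : G} (hx : 1 ≤ x) (hy : 1 ≤ y) (hz : 1 ≤ z) :
    (x * y) ⊓ z ≤ (x ⊓ z) * (y ⊓ z) := by
  rw [inf_mul, mul_inf, mul_inf]
  exact le_inf (le_inf inf_le_left (inf_le_right.trans (le_mul_of_one_le_left' hx)))
    (le_inf (inf_le_right.trans (le_mul_of_one_le_right' hy))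
      (inf_le_right.trans (le_mul_of_one_le_right' hz)))

theorem disj (z : G) : (z ⊔ 1) ⊓ (z⁻¹ ⊔ 1) = 1 := by
  have : z ⊔ 1 = z * (z⁻¹ ⊔ 1) := by rw [mul_sup, mul_inv_cancel, mul_one, sup_comm]
  rw [this, ← one_mul (z⁻¹ ⊔ 1), ← mul_assoc, mul_one, ← inf_mul, ← inv_one, ← inv_inf,
    inv_one, mul_inv_cancel]

theorem disj' {a b : G} (h : a ⊓ b = 1) : a⁻¹ * b ⊔ 1 = b := by
  rw [← inv_mul_cancel b, ← sup_mul, ← inv_inf, h, inv_one, one_mul]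

theorem cj_inf (x a b : G) : x⁻¹ * (a ⊓ b) * x = (x⁻¹ * a * x) ⊓ (x⁻¹ * b * x) := by
  rw [mul_inf, inf_mul]

theorem value {u : G} (h1 : 1 ≤ u) (hu : u ≠ 1) :
    ∃ P : Set G, IM P ∧ u ∉ P ∧ ∀ a b, a ⊓ b = 1 → a ∈ P ∨ b ∈ P := by
  obtain ⟨P, -, ⟨hP, huP⟩, hm⟩ := zorn_subset_nonempty {P : Set G | IM P ∧ u ∉ P}
    (fun c hc hch ⟨Q, hQ⟩ => ⟨⋃₀ c, ⟨⟨⟨Q, hQ, (hc hQ).1.one⟩, fun a ⟨A, hA, ha⟩ b ⟨B, hB, hb⟩ =>
      (hch.total hA hB).elim (fun h => ⟨B, hB, (hc hB).1.mul _ (h ha) _ hb⟩)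
        fun h => ⟨A, hA, (hc hA).1.mul _ ha _ (h hb)⟩,
      fun a ⟨A, hA, ha⟩ b hb => ⟨A, hA, (hc hA).1.low _ ha _ hb⟩,
      fun a ⟨A, hA, ha⟩ => ⟨A, hA, (hc hA).1.sup _ ha⟩⟩, fun ⟨A, hA, ha⟩ => (hc hA).2 ha⟩,
      fun s hs => Set.subset_sUnion_of_mem hs⟩) (Set.Iic 1)
    ⟨⟨le_rfl, fun a ha b hb => mul_le_one' ha hb, fun a ha b hb => hb.trans ha,
      fun a ha => sup_le ha le_rfl⟩, fun h => hu (le_antisymm h h1)⟩
  have key : ∀ a b, 1 ≤ a → 1 ≤ b → a ⊓ b ∈ P → a ∉ P → u ⊓ b ∈ P := fun a b ha hb hab haP => by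
    by_contra hub
    refine haP (hm (y := {z | (z ⊔ 1) ⊓ b ∈ P}) ⟨⟨?_, fun x hx y hy => ?_, fun x hx y hy => ?_,
      fun x hx => ?_⟩, ?_⟩ (fun z hz => hP.low _ (hP.sup _ hz) _ inf_le_left) ?_)
    · exact hP.low _ hP.one _ (by simp)
    · exact hP.low _ (hP.mul _ hx _ hy) _ ((inf_le_inf_right _ (sup_le_mul x y).2).trans
        (inf_mul_le le_sup_right le_sup_right hb))
    · exact hP.low _ hx _ (inf_le_inf_right _ (sup_le_sup_right hy _))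
    · simpa using hx
    · simpa [sup_eq_left.2 h1] using hub
    · simpa [sup_eq_left.2 ha] using hab
  refine ⟨P, hP, huP, fun a b hab => ?_⟩
  by_contra hn
  push Not at hn
  have ha : 1 ≤ a := hab ▸ inf_le_left
  have hb : 1 ≤ b := hab ▸ inf_le_right
  have := key b u hb h1 (inf_comm u b ▸ key a b ha hb (hab ▸ hP.one) hn.1) hn.2
  exact huP (by simpa using this)

theorem IM.total {P : Set G} (h : IM P) (hp : ∀ a b, a ⊓ b = 1 → a ∈ P ∨ b ∈ P) (z : G) :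
    z ∈ P ∨ z⁻¹ ∈ P :=
  (hp _ _ (disj z)).imp (fun e => h.low _ e _ le_sup_left) fun e => h.low _ e _ le_sup_left

/-- The convex `ℓ`-subgroup of `P`. -/
def IM.sub {P : Set G} (h : IM P) : Subgroup G where
  carrier := {z | z ∈ P ∧ z⁻¹ ∈ P}
  mul_mem' ha hb := ⟨h.mul _ ha.1 _ hb.1, by rw [mul_inv_rev]; exact h.mul _ hb.2 _ ha.2⟩
  one_mem' := ⟨h.one, by rw [inv_one]; exact h.one⟩
  inv_mem' ha := ⟨ha.2, by rw [inv_inv]; exact ha.1⟩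

theorem main (hE : ∀ x y : G, ∃ n : ℕ, (fun z : G => z⁻¹ * y⁻¹ * z * y)^[n] x = 1) (c y : G)
    (hc : c ⊓ (y⁻¹ * c * y) = 1) : c = 1 := by
  by_contra hne
  obtain ⟨P, hP, hcP, hp⟩ := value (hc ▸ inf_le_left : 1 ≤ c) hne
  have hd : ∀ j, cj y j c ⊓ cj y (j + 1) c = 1 := fun j => by
    have := congrArg (cj y j) hc
    rw [cj, cj_inf] at this
    rw [add_comm, ← cj_add]
    simpa [cj] using this
  have hm : ∀ j, cj y j c ∈ P → cj y j c ∈ hP.sub := fun j h =>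
    ⟨h, hP.low _ hP.one _ (inv_le_one'.2 (hd j ▸ inf_le_left))⟩
  obtain ⟨N, hN⟩ : ∃ N, ∀ j ≥ N, cj y j c ∈ hP.sub := by
    obtain ⟨n, hn⟩ := hE (c⁻¹ * y⁻¹ * c * y) y
    obtain ⟨N, hN⟩ | ⟨N, hN⟩ := ev y P {z | z⁻¹ ∈ P} hP.mul
      (fun a ha b hb => show (a * b)⁻¹ ∈ P from mul_inv_rev a b ▸ hP.mul _ hb _ ha) (hP.total hp) n _ hn
    · refine ⟨N + 1, fun j hj => hm _ ?_⟩
      obtain ⟨j, rfl⟩ : ∃ i, j = i + 1 := ⟨j - 1, by omega⟩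
      rw [← disj' (hd j), cj_succ, inv_mul_cancel_left]
      exact hP.sup _ (hN j (by omega))
    · refine ⟨N, fun j hj => hm _ ?_⟩
      rw [← disj' ((inf_comm _ _).trans (hd j)), cj_succ, mul_inv_rev, inv_mul_cancel_right]
      exact hP.sup _ (hN j hj)
  induction N with
  | zero => exact hcP (by simpa [cj] using (hN 0 le_rfl).1)
  | succ N ih =>
    refine ih fun j hj => ?_
    obtain rfl | hj := hj.eq_or_lt
    · obtain ⟨n, hn⟩ := hE (cj y N c) y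
      exact down y _ n _ hn fun i => cj_add y _ _ c ▸ hN _ (by omega)
    · exact hN j hj

theorem normal_value (hE : ∀ x y : G, ∃ n : ℕ, (fun z : G => z⁻¹ * y⁻¹ * z * y)^[n] x = 1) {u : G}
    (h1 : 1 ≤ u) (hu : u ≠ 1) : ∃ N : Set G, IM N ∧ u ∉ N ∧ (∀ z, z ∈ N ∨ z⁻¹ ∈ N) ∧
      ∀ x, ∀ z ∈ N, x⁻¹ * z * x ∈ N := by
  obtain ⟨P, hP, huP, hp⟩ := value h1 hu
  have hN : IM {z | ∀ x, x⁻¹ * z * x ∈ P} := ⟨fun x => by simpa using hP.one,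
    fun a ha b hb x => by simpa [mul_assoc] using hP.mul _ (ha x) _ (hb x),
    fun a ha b hb x => hP.low _ (ha x) _ (by simpa using hb),
    fun a ha x => by simpa [mul_sup, sup_mul] using hP.sup _ (ha x)⟩
  refine ⟨_, hN, fun h => huP (by simpa using h 1), hN.total fun a b hab => ?_,
    fun x z hz x' => by simpa [mul_assoc] using hz (x * x')⟩
  by_contra hn
  obtain ⟨x, hx⟩ := not_forall.1 (not_or.1 hn).1
  obtain ⟨y, hy⟩ := not_forall.1 (not_or.1 hn).2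
  have ha : 1 ≤ a := hab ▸ inf_le_left
  have hb : 1 ≤ b := hab ▸ inf_le_right
  have hp1 : ∀ x a : G, 1 ≤ a → 1 ≤ x⁻¹ * a * x := fun x a h => by
    rwa [mul_assoc, le_inv_mul_iff_mul_le, mul_one, le_mul_iff_one_le_left']
  have h0 : 1 ≤ (x⁻¹ * a * x) ⊓ (y⁻¹ * b * y) := le_inf (hp1 _ _ ha) (hp1 _ _ hb)
  refine (hp _ _ (main hE _ (y⁻¹ * x) (le_antisymm ?_ (le_inf h0 (hp1 _ _ h0))))).elim hx hy
  calc _ ≤ (x⁻¹ * a * x) ⊓ (x⁻¹ * b * x) := inf_le_inf inf_le_left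
        (by rw [cj_inf]; exact inf_le_right.trans (le_of_eq (by group)))
    _ = 1 := by rw [← cj_inf, hab]; simp

theorem quot {N : Set G} (hN : IM N) (ht : ∀ z, z ∈ N ∨ z⁻¹ ∈ N)
    (hc : ∀ x, ∀ z ∈ N, x⁻¹ * z * x ∈ N) : ∃ (H : Type) (_ : Group H) (_ : LinearOrder H)
      (_ : MulLeftMono H) (_ : MulRightMono H) (f : G →* H), (∀ a b : G, f (a ⊔ b) = f a ⊔ f b) ∧
        (∀ a b : G, f (a ⊓ b) = f a ⊓ f b) ∧ ∀ z, f z = 1 → z ∈ N ∧ z⁻¹ ∈ N := by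
  classical
  have : hN.sub.Normal := ⟨fun z hz x => ⟨by simpa using hc x⁻¹ z hz.1,
    by simpa [mul_assoc] using hc x⁻¹ _ hz.2⟩⟩
  let f := QuotientGroup.mk' hN.sub
  have hf : Function.Surjective f := QuotientGroup.mk'_surjective _
  have hk : ∀ z, f z = 1 ↔ z ∈ N ∧ z⁻¹ ∈ N := fun z => QuotientGroup.eq_one_iff z
  have hm : ∀ a b, f b⁻¹ * f a ∈ f '' N ↔ b⁻¹ * a ∈ N := fun a b =>
    ⟨fun ⟨w, hw, e⟩ => by
      have := ((hk (w⁻¹ * (b⁻¹ * a))).1 (by rw [map_mul, map_mul, map_inv, e, inv_mul_cancel])).1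
      simpa using hN.mul _ hw _ this, fun h => ⟨_, h, map_mul ..⟩⟩
  let L : LinearOrder (G ⧸ hN.sub) :=
    { le a b := b⁻¹ * a ∈ f '' N
      le_refl a := ⟨1, hN.one, by simp⟩
      le_trans a b c := fun ⟨v, hv, e⟩ ⟨w, hw, e'⟩ =>
        ⟨w * v, hN.mul _ hw _ hv, by rw [map_mul, e, e']; group⟩
      le_antisymm := hf.forall₂.2 fun a b h h' => by
        have := (hk (b⁻¹ * a)).2 ⟨(hm a b).1 h, by simpa using (hm b a).1 h'⟩
        rwa [map_mul, map_inv, inv_mul_eq_one, eq_comm] at this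
      le_total := hf.forall₂.2 fun a b => (ht (b⁻¹ * a)).imp (hm a b).2
        fun h => (hm b a).2 (by simpa using h)
      toDecidableLE := inferInstance }
  have hl : ∀ a b, f a ≤ f b ↔ b⁻¹ * a ∈ N := hm
  refine ⟨_, _, L, ⟨fun c a b h => ?_⟩, ⟨fun c a b h => ?_⟩, f,
    fun a b => eq_of_forall_ge_iff (hf.forall.2 fun c => ?_),
    fun a b => eq_of_forall_le_iff (hf.forall.2 fun c => ?_), fun z h => (hk z).1 h⟩
  · change (c * b)⁻¹ * (c * a) ∈ f '' N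
    rwa [mul_inv_rev, mul_assoc, inv_mul_cancel_left]
  · obtain ⟨a, rfl⟩ := hf a
    obtain ⟨b, rfl⟩ := hf b
    obtain ⟨c, rfl⟩ := hf c
    change f a * f c ≤ f b * f c
    rw [← map_mul, ← map_mul, hl]
    simpa [mul_assoc] using hc c _ ((hl a b).1 h)
  · rw [sup_le_iff, hl, hl, hl, mul_sup]
    exact ⟨fun h => ⟨hN.low _ h _ le_sup_left, hN.low _ h _ le_sup_right⟩, fun h => hN.sup2 h.1 h.2⟩
  · rw [le_inf_iff, hl, hl, hl, inv_inf, sup_mul]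
    exact ⟨fun h => ⟨hN.low _ h _ le_sup_left, hN.low _ h _ le_sup_right⟩, fun h => hN.sup2 h.1 h.2⟩

end Pool.Agent.H.MP_ec79b7_al
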